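import Pool.Agent.helper66.SL.SpecK

/-! # Simplicial oriented matroids (MP_ad2b66_co): row KIN (the edge directions at a vertex form a basis) -/

set_option autoImplicit false

namespace Pool.Agent.helper66.SL

open Pool.Agent.helper52.FC

theorem KIN_proof (hKTC : KTC) : KIN := by
  classical
  intro E _ L r P φ hKS T hT a
  let W := {e : E // Wall L T e}
  let d : W → EuclideanSpace ℝ (Fin r) := fun w => vp φ (fl T w.1) - vp φ T
  have hmem : ∀ x ∈ P, x - vp φ T ∈ Submodule.span ℝ (Set.range d) := by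
    intro x hx
    obtain ⟨c, _, hc, hsum⟩ := hKTC E L r P φ hKS T hT x hx
    rw [hsum]
    refine Submodule.sum_mem _ fun e _ => ?_
    by_cases he : Wall L T e
    · exact Submodule.smul_mem _ _ (Submodule.subset_span ⟨⟨e, he⟩, rfl⟩)
    · rw [hc e he, zero_smul]
      exact Submodule.zero_mem _
  have hspan : ⊤ ≤ Submodule.span ℝ (Set.range d) := by
    intro v _
    obtain ⟨x₀, hx₀⟩ := hKS.int
    obtain ⟨ε, hε, hball⟩ := Metric.isOpen_iff.1 isOpen_interior x₀ hx₀
    have hpos : 0 < ‖v‖ + 1 := by positivity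
    set δ : ℝ := ε / (‖v‖ + 1) / 2 with hδ
    have hδ0 : 0 < δ := by positivity
    have h1 : x₀ + δ • v ∈ P := by
      apply interior_subset
      apply hball
      rw [Metric.mem_ball, dist_eq_norm, add_sub_cancel_left, norm_smul, Real.norm_eq_abs, abs_of_pos hδ0]
      have h2 : δ * (‖v‖ + 1) = ε / 2 := by
        rw [hδ]
        field_simp
      have h3 : δ * ‖v‖ ≤ δ * (‖v‖ + 1) := mul_le_mul_of_nonneg_left (by linarith) hδ0.le
      linarith
    have h2 := Submodule.sub_mem _ (hmem _ h1) (hmem _ (interior_subset hx₀))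
    have h3 : x₀ + δ • v - vp φ T - (x₀ - vp φ T) = δ • v := by abel
    rw [h3] at h2
    have h4 := Submodule.smul_mem _ δ⁻¹ h2
    rwa [smul_smul, inv_mul_cancel₀ hδ0.ne', one_smul] at h4
  have hcard : Fintype.card W = Module.finrank ℝ (EuclideanSpace ℝ (Fin r)) := by
    rw [finrank_euclideanSpace_fin]
    have h1 := hKS.reg T hT
    rw [← Nat.card_coe_set_eq, Nat.card_eq_fintype_card] at h1
    rw [← h1]
    exact Fintype.card_congr (Equiv.refl _)
  let b := basisOfTopLeSpanOfCardEqFinrank d hspan hcard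
  refine ⟨b.constr ℝ (fun w : W => a w.1), fun e he => ?_⟩
  have h1 : vp φ (fl T e) - vp φ T = b ⟨e, he⟩ := by
    rw [coe_basisOfTopLeSpanOfCardEqFinrank]
  rw [h1, Module.Basis.constr_basis]

end Pool.Agent.helper66.SL
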